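import Pool.Agent.helper63.CV.F5
import Pool.Agent.helper93.CV.P2

/-!
# CV project, module F6: the estimate on the fibres
-/

open scoped BigOperators

namespace Pool.Agent.helper28.OC

open L1G

/-- one of the two functions is large, the perturbation is small: then the mean is large -/
theorem F6_point (x y a z : ℂ) (R : ℝ) (hR : 0 < R) (h : x * y + a * (x + y) = z)
    (hx : R < ‖x‖) (ha : ‖a‖ ≤ R / 8) (hz : ‖z‖ ≤ R ^ 2 / 8) : R / 4 ≤ ‖(x + y) / 2‖ := by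
  have h1 : y * (x + a) = z - a * x := by rw [← h]; ring
  have h2 : 7 / 8 * ‖x‖ ≤ ‖x + a‖ := by
    have := norm_sub_le_norm_add x a
    linarith
  have h3 : ‖y‖ * (7 / 8 * ‖x‖) ≤ R / 8 * ‖x‖ + R / 8 * ‖x‖ := by
    calc ‖y‖ * (7 / 8 * ‖x‖) ≤ ‖y‖ * ‖x + a‖ := by gcongr
      _ = ‖z - a * x‖ := by rw [← norm_mul, h1]
      _ ≤ ‖z‖ + ‖a‖ * ‖x‖ := (norm_sub_le _ _).trans (by rw [norm_mul])
      _ ≤ R ^ 2 / 8 + R / 8 * ‖x‖ := by gcongr
      _ ≤ R / 8 * ‖x‖ + R / 8 * ‖x‖ := by nlinarith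
  have hx0 : 0 < ‖x‖ := hR.trans hx
  have h4 : ‖y‖ ≤ R / 2 := by
    have h5 : ‖y‖ * (7 / 8) ≤ R / 4 := by
      refine le_of_mul_le_mul_right ?_ hx0
      calc ‖y‖ * (7 / 8) * ‖x‖ = ‖y‖ * (7 / 8 * ‖x‖) := by ring
        _ ≤ _ := h3
        _ = R / 4 * ‖x‖ := by ring
    linarith
  have h5 : ‖x‖ - ‖y‖ ≤ ‖x + y‖ := norm_sub_le_norm_add x y
  rw [norm_div]
  have : ‖(2 : ℂ)‖ = 2 := by simp
  rw [this]
  linarith

/-- module F6 (needs F5): on every fibre `q = (x + y) / 2` is large with probability `1/500`, so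
the mean of `w_N` is at least `1/1000` -/
theorem F6_fibre (p : ℕ) [Fact p.Prime] (ε δ : ℝ) (hε : 0 < ε) (hδ : 0 < δ) :
    ∃ N T₀ : ℕ, ∀ T, T₀ ≤ T → ∀ (a : ℂ) (x y : Omm p (8 * T) → ℂ), AB x ε → AB y ε →
      ‖a‖ * Real.sqrt (8 * T) ≤ ε → (∀ v, x v * y v + a * (x v + y v) = (zf δ v : ℝ)) →
      1 / 1000 ≤ 𝔼 v, wN ε N ((x v + y v) / 2) := by
  classical
  have hp : p.Prime := Fact.out
  have hp0 : (0 : ℝ) < p := by exact_mod_cast hp.pos
  set R : ℝ := δ / (1600 * p * ε) with hR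
  have hR0 : 0 < R := by positivity
  obtain ⟨T₁, hT₁⟩ := F5_lemmaF p ε δ hε hδ
  -- the number `N`
  set u₀ : ℝ := min ((R / 4) ^ 2 / ε ^ 2) 1 with hu₀
  have hu0 : 0 < u₀ := lt_min (by positivity) one_pos
  have hu1 : u₀ ≤ 1 := min_le_right _ _
  obtain ⟨N, hN⟩ := exists_pow_lt_of_lt_one (by norm_num : (0 : ℝ) < 1 / 2)
    (by linarith : 1 - u₀ < 1)
  obtain ⟨T₂, hT₂⟩ := exists_nat_ge ((8 * ε / R) ^ 2)
  obtain ⟨T₃, hT₃⟩ := exists_nat_ge (500 * 64 * δ ^ 2 / R ^ 4)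
  refine ⟨N, max (max T₁ 1) (max T₂ T₃), fun T hT a x y hx hy ha hxy => ?_⟩
  have hTT1 : T₁ ≤ T := le_trans (le_trans (le_max_left _ _) (le_max_left _ _)) hT
  have hT1 : 1 ≤ T := le_trans (le_trans (le_max_right _ _) (le_max_left _ _)) hT
  have hTT2 : (T₂ : ℝ) ≤ T := by
    exact_mod_cast le_trans (le_trans (le_max_left _ _) (le_max_right _ _)) hT
  have hTT3 : (T₃ : ℝ) ≤ T := by
    exact_mod_cast le_trans (le_trans (le_max_right _ _) (le_max_right _ _)) hT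
  have hT0 : (0 : ℝ) < T := by exact_mod_cast hT1
  have hn : Nonempty (Omm p (8 * T)) := ⟨0⟩
  have hcard0 : (0 : ℝ) < Fintype.card (Omm p (8 * T)) := by exact_mod_cast Fintype.card_pos
  set M : ℝ := 8 * T with hM
  have hM0 : 0 < M := by positivity
  have hMcast : ((8 * T : ℕ) : ℝ) = M := by push_cast; rfl
  have ha8 : ‖a‖ ≤ R / 8 := by
    have h1 : 8 * ε / R ≤ Real.sqrt M := by
      apply Real.le_sqrt_of_sq_le
      rw [hM]; linarith
    have h2 : 8 * ε ≤ R * Real.sqrt M := by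
      rw [div_le_iff₀ hR0] at h1; linarith
    have hs0 : 0 < Real.sqrt M := Real.sqrt_pos.2 hM0
    have h3 : ‖a‖ * 8 * Real.sqrt M ≤ R * Real.sqrt M := by linarith
    have h4 := le_of_mul_le_mul_right h3 hs0
    linarith
  set E : Finset (Omm p (8 * T)) := Finset.univ.filter fun v => ‖x v‖ ≤ R ∧ ‖y v‖ ≤ R with hE
  have hcE := hT₁ T hTT1 a x y hx hy ha hxy E (fun v hv => (Finset.mem_filter.1 hv).2)
  set Z : Finset (Omm p (8 * T)) := Finset.univ.filter fun v => (R ^ 2 / 8) ^ 2 ≤ (zf δ v) ^ 2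
    with hZ
  have hcZ : (Z.card : ℝ) ≤ 1 / 500 * Fintype.card (Omm p (8 * T)) := by
    refine F5_cheb (fun v => (zf δ v) ^ 2) (fun v => sq_nonneg _) (δ ^ 2 / ((8 * T : ℕ) : ℝ)) _
      ((R ^ 2 / 8) ^ 2) (P2_zf p (8 * T) (by omega) δ hδ).2 (by positivity) ?_ Z
      (fun v hv => (Finset.mem_filter.1 hv).2)
    rw [hMcast, div_le_iff₀ hM0]
    have h1 : 500 * 64 * δ ^ 2 / R ^ 4 ≤ M := by rw [hM]; linarith
    rw [div_le_iff₀ (by positivity)] at h1
    nlinarith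
  set F : Finset (Omm p (8 * T)) := (Finset.univ \ E) \ Z with hF
  have hcF : 1 / 500 * (Fintype.card (Omm p (8 * T)) : ℝ) ≤ F.card := by
    have h1 : Fintype.card (Omm p (8 * T)) ≤ F.card + E.card + Z.card := by
      calc Fintype.card (Omm p (8 * T)) = (Finset.univ : Finset (Omm p (8 * T))).card := rfl
        _ ≤ ((F ∪ E) ∪ Z).card := Finset.card_le_card fun w _ => by
            rw [Finset.mem_union, Finset.mem_union, hF, Finset.mem_sdiff, Finset.mem_sdiff]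
            have := Finset.mem_univ w
            tauto
        _ ≤ (F ∪ E).card + Z.card := Finset.card_union_le _ _
        _ ≤ F.card + E.card + Z.card := by
            gcongr; exact Finset.card_union_le _ _
    have h2 : (Fintype.card (Omm p (8 * T)) : ℝ) ≤ F.card + E.card + Z.card := by exact_mod_cast h1
    linarith
  have hq : ∀ v, ‖(x v + y v) / 2‖ ≤ ε := fun v => by
    rw [norm_div]
    have : ‖(2 : ℂ)‖ = 2 := by simp
    rw [this]
    have h1 := norm_add_le (x v) (y v)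
    have h2 := AB_norm_le hx v
    have h3 := AB_norm_le hy v
    linarith
  have hw0 : ∀ v, 0 ≤ wN ε N ((x v + y v) / 2) := fun v => (P2_wN_mem _ ε N hε (hq v)).1
  have hwF : ∀ v ∈ F, 1 / 2 ≤ wN ε N ((x v + y v) / 2) := by
    intro v hv
    rw [hF, Finset.mem_sdiff, Finset.mem_sdiff] at hv
    obtain ⟨⟨_, hv1⟩, hv2⟩ := hv
    have hz : ‖((zf δ v : ℝ) : ℂ)‖ ≤ R ^ 2 / 8 := by
      rw [Complex.norm_real, Real.norm_eq_abs]
      by_contra hcon
      apply hv2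
      rw [hZ, Finset.mem_filter]
      refine ⟨Finset.mem_univ _, ?_⟩
      rw [← sq_abs (zf δ v)]
      have : 0 ≤ R ^ 2 / 8 := by positivity
      gcongr
      exact (not_le.1 hcon).le
    have hlow : R / 4 ≤ ‖(x v + y v) / 2‖ := by
      by_cases hxv : R < ‖x v‖
      · exact F6_point (x v) (y v) a _ R hR0 (hxy v) hxv ha8 hz
      · have hyv : R < ‖y v‖ := by
          by_contra hcon
          apply hv1
          rw [hE, Finset.mem_filter]
          exact ⟨Finset.mem_univ _, not_lt.1 hxv, not_lt.1 hcon⟩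
        rw [add_comm (x v)]
        refine F6_point (y v) (x v) a _ R hR0 ?_ hyv ha8 hz
        rw [← hxy v]; ring
    have h1 : (R / 4) ^ 2 / ε ^ 2 ≤ ‖(x v + y v) / 2‖ ^ 2 / ε ^ 2 := by gcongr
    have h2 : u₀ ≤ ‖(x v + y v) / 2‖ ^ 2 / ε ^ 2 := (min_le_left _ _).trans h1
    have h3 : ‖(x v + y v) / 2‖ ^ 2 / ε ^ 2 ≤ 1 := by
      rw [div_le_one (by positivity)]
      gcongr
      exact hq v
    have h4 : (1 - ‖(x v + y v) / 2‖ ^ 2 / ε ^ 2) ^ N ≤ (1 - u₀) ^ N := by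
      gcongr
    unfold wN
    linarith
  rw [Fintype.expect_eq_sum_div_card, le_div_iff₀ hcard0]
  calc 1 / 1000 * (Fintype.card (Omm p (8 * T)) : ℝ) ≤ F.card * (1 / 2) := by linarith
    _ = ∑ v ∈ F, (1 / 2 : ℝ) := by rw [Finset.sum_const, nsmul_eq_mul]
    _ ≤ ∑ v ∈ F, wN ε N ((x v + y v) / 2) := Finset.sum_le_sum hwF
    _ ≤ ∑ v, wN ε N ((x v + y v) / 2) := Finset.sum_le_sum_of_subset_of_nonneg
          (Finset.subset_univ _) fun v _ _ => hw0 v

end Pool.Agent.helper28.OC
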