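import Pool.Agent.helper28.OC.Base

/-!
# CV project, module A1: openness of the convolution passes to quotients
-/

open scoped BigOperators

namespace Pool.Agent.helper28.OC

open L1G

section

variable {G Q : Type*} (φ : G → Q)

theorem A1_summable_sigma {E : Type*} [NormedAddCommGroup E] [CompleteSpace E] {f : G → E}
    (hf : Summable fun x => ‖f x‖) :
    Summable fun p : (Σ q, {x // φ x = q}) => f p.2 := by
  have h : Summable fun x => f x := hf.of_norm
  exact (Equiv.summable_iff (Equiv.sigmaFiberEquiv φ)).2 h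

theorem A1_tsum_fiber {f : G → ℂ} (hf : Summable fun x => ‖f x‖) :
    ∑' q, ∑' x : {x // φ x = q}, f x = ∑' x, f x := by
  have h1 := A1_summable_sigma φ hf
  rw [← h1.tsum_sigma]
  exact Equiv.tsum_eq (Equiv.sigmaFiberEquiv φ) f

theorem A1_mem (f : L1 G) : Memℓp (fun q => ∑' x : {x // φ x = q}, f x) 1 := by
  apply memlp_of_summable
  have h1 : Summable fun p : (Σ q, {x // φ x = q}) => ‖f p.2‖ :=
    (Equiv.summable_iff (Equiv.sigmaFiberEquiv φ)).2 (summable_norm f)
  refine Summable.of_nonneg_of_le (fun _ => norm_nonneg _) (fun q => ?_) h1.sigma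
  exact norm_tsum_le_tsum_norm (h1.sigma_factor q)

theorem A1_summable_fiber (f : L1 G) (q : Q) : Summable fun x : {x // φ x = q} => f x :=
  ((summable_norm f).subtype _).of_norm

/-- push-forward of elements of `ℓ₁` -/
noncomputable def A1_push : L1 G →L[ℂ] L1 Q :=
  LinearMap.mkContinuous
    { toFun := fun f => ⟨fun q => ∑' x : {x // φ x = q}, f x, A1_mem φ f⟩
      map_add' := fun f g => by
        ext q
        exact (A1_summable_fiber φ f q).tsum_add (A1_summable_fiber φ g q)
      map_smul' := fun c f => by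
        ext q
        exact tsum_const_smul'' c } 1 (fun f => by
    have h1 : Summable fun p : (Σ q, {x // φ x = q}) => ‖f p.2‖ :=
      (Equiv.summable_iff (Equiv.sigmaFiberEquiv φ)).2 (summable_norm f)
    rw [one_mul, norm_eq, norm_eq]
    calc ∑' q, ‖∑' x : {x // φ x = q}, f x‖ ≤ ∑' q, ∑' x : {x // φ x = q}, ‖f x‖ := by
          refine Summable.tsum_le_tsum (fun q => norm_tsum_le_tsum_norm (h1.sigma_factor q)) ?_
            h1.sigma
          exact summable_norm (⟨fun q => ∑' x : {x // φ x = q}, f x, A1_mem φ f⟩ : L1 Q)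
      _ = ∑' p : (Σ q, {x // φ x = q}), ‖f p.2‖ := (h1.tsum_sigma).symm
      _ = ∑' x, ‖f x‖ := Equiv.tsum_eq (Equiv.sigmaFiberEquiv φ) fun x => ‖f x‖)

theorem A1_push_apply (f : L1 G) (q : Q) :
    A1_push φ f q = ∑' x : {x // φ x = q}, f x := rfl

theorem A1_push_surjective (hφ : Function.Surjective φ) : Function.Surjective (A1_push φ) := by
  classical
  intro u
  set s := Function.surjInv hφ with hs
  have hsi : Function.Injective s := Function.injective_surjInv hφ
  have hφs : ∀ q, φ (s q) = q := Function.surjInv_eq hφ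
  let g : G → ℂ := fun x => if s (φ x) = x then u (φ x) else 0
  have hgs : ∀ q, g (s q) = u q := fun q => by
    simp only [g, hφs, if_true]
  have hg0 : ∀ x, x ∉ Set.range s → ‖g x‖ = 0 := fun x hx => by
    have : ¬ s (φ x) = x := fun h => hx ⟨_, h⟩
    simp [g, this]
  have hsum : Summable fun x => ‖g x‖ := by
    refine (hsi.summable_iff hg0).1 ?_
    have : ((fun x => ‖g x‖) ∘ s) = fun q => ‖u q‖ := by
      funext q; simp only [Function.comp, hgs]
    rw [this]
    exact summable_norm u
  refine ⟨⟨g, memlp_of_summable hsum⟩, ?_⟩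
  ext q
  rw [A1_push_apply]
  change ∑' x : {x // φ x = q}, g x = u q
  rw [tsum_eq_single (⟨s q, hφs q⟩ : {x // φ x = q})]
  · exact hgs q
  · rintro ⟨x, hx⟩ hne
    have : ¬ s (φ x) = x := fun h => hne (by
      apply Subtype.ext
      change x = s q
      rw [← h, hx])
    simp [g, this]

end

theorem A1_push_conv {G Q : Type*} [Group G] [Group Q] (φ : G →* Q) (f h : L1 G) :
    A1_push φ (conv f h) = conv (A1_push φ f) (A1_push φ h) := by
  ext q
  rw [A1_push_apply, conv_apply]
  simp only [conv_apply]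
  -- Fubini on the fibre
  have h1 : Summable fun p : {x // φ x = q} × G => f p.2 * h (p.2⁻¹ * p.1) := by
    have h2 := summable_conv_prod (summable_norm f) (summable_norm h)
    have h3 : Function.Injective (fun p : {x // φ x = q} × G => ((p.1 : G), p.2)) := by
      rintro ⟨⟨x, hx⟩, y⟩ ⟨⟨x', hx'⟩, y'⟩ hh
      simp only [Prod.mk.injEq] at hh
      obtain ⟨rfl, rfl⟩ := hh
      rfl
    exact (h2.comp_injective h3).of_norm
  have h2 : ∑' x : {x // φ x = q}, ∑' y, f y * h (y⁻¹ * x) =
      ∑' y, ∑' x : {x // φ x = q}, f y * h (y⁻¹ * x) := by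
    have h1' : Summable (Function.uncurry fun (x : {x // φ x = q}) (y : G) =>
        f y * h (y⁻¹ * x)) := h1
    exact h1'.tsum_comm.symm
  rw [h2]
  have h3 : ∀ y, ∑' x : {x // φ x = q}, f y * h (y⁻¹ * x) = f y * A1_push φ h ((φ y)⁻¹ * q) := by
    intro y
    rw [tsum_mul_left, A1_push_apply]
    congr 1
    let e : {x // φ x = q} ≃ {x // φ x = (φ y)⁻¹ * q} :=
      { toFun := fun x => ⟨y⁻¹ * x, by rw [map_mul, map_inv, x.2]⟩
        invFun := fun x => ⟨y * x, by rw [map_mul, x.2, mul_inv_cancel_left]⟩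
        left_inv := fun x => by simp
        right_inv := fun x => by simp }
    exact Equiv.tsum_eq e (fun x => h (x : G))
  simp_rw [h3]
  have h4 : Summable fun y => ‖f y * A1_push φ h ((φ y)⁻¹ * q)‖ := by
    refine Summable.of_nonneg_of_le (fun _ => norm_nonneg _) (fun y => ?_)
      ((summable_norm f).mul_right ‖A1_push φ h‖)
    rw [norm_mul]
    exact mul_le_mul_of_nonneg_left (lp.norm_apply_le_norm (by simp) _ _) (norm_nonneg _)
  rw [← A1_tsum_fiber φ h4]
  refine tsum_congr fun r => ?_
  rw [A1_push_apply φ f r, ← tsum_mul_right]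
  refine tsum_congr fun y => ?_
  rw [y.2]

/-- module A1: openness of the convolution passes to quotients. -/
theorem A1_quotient {G Q : Type*} [Group G] [Group Q] (φ : G →* Q)
    (hφ : Function.Surjective φ) (h : OpenConv G) : OpenConv Q := by
  have hs := A1_push_surjective φ hφ
  have hP : Function.Surjective (Prod.map (A1_push φ) (A1_push φ)) := hs.prodMap hs
  have hc : Continuous (Prod.map (A1_push φ) (A1_push φ)) :=
    (A1_push φ).continuous.prodMap (A1_push φ).continuous
  have h1 : (fun q : L1 Q × L1 Q => conv q.1 q.2) ∘ Prod.map (A1_push φ) (A1_push φ) =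
      A1_push φ ∘ fun q : L1 G × L1 G => conv q.1 q.2 := by
    funext q
    exact (A1_push_conv φ q.1 q.2).symm
  have h2 : IsOpenMap ((fun q : L1 Q × L1 Q => conv q.1 q.2) ∘
      Prod.map (A1_push φ) (A1_push φ)) := by
    rw [h1]
    exact ((A1_push φ).isOpenMap hs).comp h
  intro U hU
  have h3 := h2 _ (hU.preimage hc)
  rwa [Set.image_comp, Set.image_preimage_eq _ hP] at h3

end Pool.Agent.helper28.OC
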