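import Pool.Agent.helper28.OC.Base

/-!
# CV project, module F1: truncation of a Fourier expansion
-/

open scoped BigOperators ComplexConjugate

namespace Pool.Agent.helper28.OC

open L1G

theorem F1_expect_mul {Ω : Type*} [AddCommGroup Ω] [Fintype Ω] (ψ φ : AddChar Ω ℂ) :
    𝔼 w, ψ w * conj (φ w) = if ψ = φ then 1 else 0 := by
  have h : ∀ w, ψ w * conj (φ w) = (ψ * φ⁻¹) w := fun w => by
    rw [AddChar.mul_apply, AddChar.inv_apply, AddChar.map_neg_eq_inv,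
      AddChar.inv_apply_eq_conj]
  simp_rw [h]
  rw [AddChar.expect_eq_ite]
  by_cases hh : ψ = φ
  · subst hh
    simp [mul_inv_cancel, AddChar.one_eq_zero]
  · have : ψ * φ⁻¹ ≠ 0 := by
      rw [← AddChar.one_eq_zero]
      rwa [Ne, mul_inv_eq_one]
    rw [if_neg this, if_neg hh]

theorem F1_parseval {Ω : Type*} [AddCommGroup Ω] [Fintype Ω] (S : Finset (AddChar Ω ℂ))
    (c : AddChar Ω ℂ → ℂ) : 𝔼 w, ‖∑ ψ ∈ S, c ψ * ψ w‖ ^ 2 = ∑ ψ ∈ S, ‖c ψ‖ ^ 2 := by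
  classical
  have h1 : ((𝔼 w, ‖∑ ψ ∈ S, c ψ * ψ w‖ ^ 2 : ℝ) : ℂ) = ((∑ ψ ∈ S, ‖c ψ‖ ^ 2 : ℝ) : ℂ) := by
    have h2 : ∀ w, ((‖∑ ψ ∈ S, c ψ * ψ w‖ ^ 2 : ℝ) : ℂ) =
        ∑ ψ ∈ S, ∑ φ ∈ S, (c ψ * conj (c φ)) * (ψ w * conj (φ w)) := fun w => by
      push_cast
      rw [← Complex.mul_conj', map_sum, Finset.sum_mul_sum]
      refine Finset.sum_congr rfl fun ψ _ => Finset.sum_congr rfl fun φ _ => ?_
      rw [map_mul]; ring
    have h3 : ((𝔼 w, ‖∑ ψ ∈ S, c ψ * ψ w‖ ^ 2 : ℝ) : ℂ) =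
        𝔼 w, ((‖∑ ψ ∈ S, c ψ * ψ w‖ ^ 2 : ℝ) : ℂ) := by
      exact map_expect (Complex.ofRealHom) _ _
    rw [h3]
    simp_rw [h2]
    rw [Finset.expect_sum_comm]
    push_cast
    refine Finset.sum_congr rfl fun ψ hψ => ?_
    rw [Finset.expect_sum_comm]
    have h4 : ∀ φ ∈ S, 𝔼 w, (c ψ * conj (c φ)) * (ψ w * conj (φ w)) =
        if ψ = φ then c ψ * conj (c φ) else 0 := fun φ _ => by
      rw [← Finset.mul_expect, F1_expect_mul]
      split_ifs <;> simp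
    rw [Finset.sum_congr rfl h4, Finset.sum_ite_eq, if_pos hψ, Complex.mul_conj']
  exact_mod_cast h1

/-- module F1: truncation of the Fourier expansion: few characters, small error in
mean square -/
theorem F1_truncate {Ω : Type*} [AddCommGroup Ω] [Fintype Ω] {x : Ω → ℂ} {ε : ℝ} (hε : 0 < ε)
    (hx : AB x ε) (T : ℕ) (hT : 0 < T) :
    ∃ (S : Finset (AddChar Ω ℂ)) (c : AddChar Ω ℂ → ℂ), S.card ≤ T ∧
      𝔼 w, ‖x w - ∑ ψ ∈ S, c ψ * ψ w‖ ^ 2 ≤ ε ^ 2 / T := by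
  classical
  obtain ⟨c, hc, hce⟩ := hx
  have hT' : (0 : ℝ) < T := by exact_mod_cast hT
  have hη : 0 < ε / T := by positivity
  let S : Finset (AddChar Ω ℂ) := Finset.univ.filter fun ψ => ε / T ≤ ‖c ψ‖
  refine ⟨S, c, ?_, ?_⟩
  · have h1 : (S.card : ℝ) * (ε / T) ≤ ε := by
      calc (S.card : ℝ) * (ε / T) = ∑ ψ ∈ S, ε / T := by rw [Finset.sum_const, nsmul_eq_mul]
        _ ≤ ∑ ψ ∈ S, ‖c ψ‖ := Finset.sum_le_sum fun ψ hψ => (Finset.mem_filter.1 hψ).2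
        _ ≤ ∑ ψ, ‖c ψ‖ := Finset.sum_le_sum_of_subset_of_nonneg (Finset.subset_univ _)
              fun ψ _ _ => norm_nonneg _
        _ ≤ ε := hce
    have h2 : (S.card : ℝ) ≤ T := by
      rw [mul_div_assoc', div_le_iff₀ hT', mul_comm] at h1
      exact le_of_mul_le_mul_left h1 hε
    exact_mod_cast h2
  · have h1 : ∀ w, x w - ∑ ψ ∈ S, c ψ * ψ w = ∑ ψ ∈ Sᶜ, c ψ * ψ w := fun w => by
      rw [hc w, sub_eq_iff_eq_add]
      exact (Finset.sum_compl_add_sum S _).symm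
    simp_rw [h1]
    rw [F1_parseval]
    calc ∑ ψ ∈ Sᶜ, ‖c ψ‖ ^ 2 ≤ ∑ ψ ∈ Sᶜ, ε / T * ‖c ψ‖ := by
          refine Finset.sum_le_sum fun ψ hψ => ?_
          have h3 : ‖c ψ‖ < ε / T := by
            have := Finset.mem_compl.1 hψ
            by_contra hcon
            exact this (Finset.mem_filter.2 ⟨Finset.mem_univ _, not_lt.1 hcon⟩)
          rw [sq]
          exact mul_le_mul_of_nonneg_right h3.le (norm_nonneg _)
      _ = ε / T * ∑ ψ ∈ Sᶜ, ‖c ψ‖ := by rw [Finset.mul_sum]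
      _ ≤ ε / T * ε := by
          refine mul_le_mul_of_nonneg_left ?_ hη.le
          refine le_trans ?_ hce
          exact Finset.sum_le_sum_of_subset_of_nonneg (Finset.subset_univ _)
              fun ψ _ _ => norm_nonneg _
      _ = ε ^ 2 / T := by ring

end Pool.Agent.helper28.OC
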