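import Pool.Agent.helper63.CV.F1
import Pool.Agent.helper26.CV.F4
import Pool.Agent.helper93.CV.AB

/-!
# CV project, module F5: Lemma F
-/

open scoped BigOperators

namespace Pool.Agent.helper28.OC

open L1G

/-- Chebyshev with counting. -/
theorem F5_cheb {Ω : Type*} [Fintype Ω] [Nonempty Ω] (f : Ω → ℝ) (hf : ∀ w, 0 ≤ f w)
    (B κ η : ℝ) (h : 𝔼 w, f w ≤ B) (hη : 0 < η) (hB : B ≤ κ * η) (E : Finset Ω)
    (hE : ∀ w ∈ E, η ≤ f w) : (E.card : ℝ) ≤ κ * Fintype.card Ω := by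
  have hc : (0 : ℝ) < Fintype.card Ω := by exact_mod_cast Fintype.card_pos
  rw [Fintype.expect_eq_sum_div_card, div_le_iff₀ hc] at h
  have h1 : (E.card : ℝ) * η ≤ ∑ w, f w := by
    calc (E.card : ℝ) * η = ∑ w ∈ E, η := by rw [Finset.sum_const, nsmul_eq_mul]
      _ ≤ ∑ w ∈ E, f w := Finset.sum_le_sum hE
      _ ≤ ∑ w, f w := Finset.sum_le_sum_of_subset_of_nonneg (Finset.subset_univ _)
            fun w _ _ => hf w
  have h2 : (E.card : ℝ) * η ≤ κ * Fintype.card Ω * η := by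
    calc (E.card : ℝ) * η ≤ B * Fintype.card Ω := h1.trans h
      _ ≤ κ * η * Fintype.card Ω := mul_le_mul_of_nonneg_right hB hc.le
      _ = κ * Fintype.card Ω * η := by ring
  exact le_of_mul_le_mul_right h2 hη

/-- the pointwise computation -/
theorem F5_point (x y x' y' a : ℂ) (z R η e : ℝ) (hxy : x * y + a * (x + y) = (z : ℝ))
    (hx : ‖x‖ ≤ R) (hy : ‖y‖ ≤ R) (hx' : ‖x - x'‖ ≤ η) (hy' : ‖y - y'‖ ≤ η) (ha : ‖a‖ ≤ e)
    (hR : 0 ≤ R) :
    |z - (x' * y').re| ≤ 2 * R * η + η ^ 2 + 2 * R * e := by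
  have h1 : |z - (x' * y').re| ≤ ‖(z : ℂ) - x' * y'‖ := by
    have : z - (x' * y').re = ((z : ℂ) - x' * y').re := by simp
    rw [this]
    exact Complex.abs_re_le_norm _
  refine h1.trans ?_
  rw [← hxy]
  have hη : 0 ≤ η := (norm_nonneg _).trans hx'
  have he : 0 ≤ e := (norm_nonneg _).trans ha
  have h2 : x * y + a * (x + y) - x' * y' =
      (x - x') * y + x * (y - y') - (x - x') * (y - y') + a * (x + y) := by ring
  rw [h2]
  have h3 : ‖x + y‖ ≤ 2 * R := (norm_add_le _ _).trans (by linarith)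
  calc ‖(x - x') * y + x * (y - y') - (x - x') * (y - y') + a * (x + y)‖
      ≤ ‖(x - x') * y + x * (y - y') - (x - x') * (y - y')‖ + ‖a * (x + y)‖ := norm_add_le _ _
    _ ≤ ‖(x - x') * y + x * (y - y')‖ + ‖(x - x') * (y - y')‖ + ‖a * (x + y)‖ := by
        gcongr; exact norm_sub_le _ _
    _ ≤ ‖(x - x') * y‖ + ‖x * (y - y')‖ + ‖(x - x') * (y - y')‖ + ‖a * (x + y)‖ := by
        gcongr; exact norm_add_le _ _
    _ ≤ η * R + R * η + η * η + e * (2 * R) := by
        simp only [norm_mul]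
        gcongr
    _ = 2 * R * η + η ^ 2 + 2 * R * e := by ring

/-- module F5 (needs F1, F4): Lemma F -/
theorem F5_lemmaF (p : ℕ) [Fact p.Prime] (ε δ : ℝ) (hε : 0 < ε) (hδ : 0 < δ) :
    ∃ T₀ : ℕ, ∀ T, T₀ ≤ T → ∀ (a : ℂ) (x y : Omm p (8 * T) → ℂ), AB x ε → AB y ε →
      ‖a‖ * Real.sqrt (8 * T) ≤ ε → (∀ v, x v * y v + a * (x v + y v) = (zf δ v : ℝ)) →
      ∀ E : Finset (Omm p (8 * T)),
        (∀ v ∈ E, ‖x v‖ ≤ δ / (1600 * p * ε) ∧ ‖y v‖ ≤ δ / (1600 * p * ε)) →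
        (E.card : ℝ) ≤ (1 - 1 / 250) * Fintype.card (Omm p (8 * T)) := by
  classical
  have hp : p.Prime := Fact.out
  have hp0 : (0 : ℝ) < p := by exact_mod_cast hp.pos
  have hp1 : (1 : ℝ) ≤ p := by exact_mod_cast hp.one_le
  obtain ⟨T₁, hT₁⟩ := exists_nat_ge ((4096 * ε ^ 2 * (1600 * p) / δ) ^ 2)
  refine ⟨max T₁ (max p 1), fun T hT a x y hx hy ha hxy E hE => ?_⟩
  have hTp : p ≤ T := le_trans (le_trans (le_max_left _ _) (le_max_right _ _)) hT
  have hT1 : 1 ≤ T := le_trans (le_trans (le_max_right _ _) (le_max_right _ _)) hT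
  have hTT : (T₁ : ℝ) ≤ T := by exact_mod_cast le_trans (le_max_left _ _) hT
  have hT0 : (0 : ℝ) < T := by exact_mod_cast hT1
  have hT1' : (1 : ℝ) ≤ T := by exact_mod_cast hT1
  set M : ℝ := 8 * T with hM
  have hM0 : 0 < M := by positivity
  set r : ℝ := Real.sqrt M with hr
  have hr0 : 0 < r := Real.sqrt_pos.2 hM0
  have hr2 : r ^ 2 = M := Real.sq_sqrt hM0.le
  have hMcast : ((8 * T : ℕ) : ℝ) = M := by push_cast; rfl
  have hrbig : 4096 * ε ^ 2 * (1600 * p) / δ ≤ r := by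
    apply Real.le_sqrt_of_sq_le
    rw [hM]
    linarith
  have hn : Nonempty (Omm p (8 * T)) := ⟨0⟩
  obtain ⟨S₁, c₁, hS₁, h₁⟩ := F1_truncate hε hx T (by omega)
  obtain ⟨S₂, c₂, hS₂, h₂⟩ := F1_truncate hε hy T (by omega)
  set x' : Omm p (8 * T) → ℂ := fun w => ∑ ψ ∈ S₁, c₁ ψ * ψ w with hx'
  set y' : Omm p (8 * T) → ℂ := fun w => ∑ ψ ∈ S₂, c₂ ψ * ψ w with hy'
  set η : ℝ := 64 * ε / r with hη
  have hη0 : 0 < η := by positivity
  have hη2 : η ^ 2 = 4096 * ε ^ 2 / M := by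
    rw [hη, div_pow, hr2]; ring
  have hbd : ε ^ 2 / T ≤ 1 / 512 * η ^ 2 := by
    rw [hη2, hM]
    apply le_of_eq
    field_simp
    norm_num
  -- bad sets
  set B₁ : Finset (Omm p (8 * T)) := Finset.univ.filter fun w => η ^ 2 ≤ ‖x w - x' w‖ ^ 2 with hB₁
  set B₂ : Finset (Omm p (8 * T)) := Finset.univ.filter fun w => η ^ 2 ≤ ‖y w - y' w‖ ^ 2 with hB₂
  have hcB₁ : (B₁.card : ℝ) ≤ 1 / 512 * Fintype.card (Omm p (8 * T)) :=
    F5_cheb (fun w => ‖x w - x' w‖ ^ 2) (fun w => sq_nonneg _) _ _ (η ^ 2) h₁ (by positivity) hbd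
      B₁ (fun w hw => (Finset.mem_filter.1 hw).2)
  have hcB₂ : (B₂.card : ℝ) ≤ 1 / 512 * Fintype.card (Omm p (8 * T)) :=
    F5_cheb (fun w => ‖y w - y' w‖ ^ 2) (fun w => sq_nonneg _) _ _ (η ^ 2) h₂ (by positivity) hbd
      B₂ (fun w hw => (Finset.mem_filter.1 hw).2)
  set E' := (E \ B₁) \ B₂ with hE'
  set R : ℝ := δ / (1600 * p * ε) with hR
  have hR0 : 0 < R := by positivity
  set s : Omm p (8 * T) → ℝ := fun w => M / p + 3 * M / δ * (x' w * y' w).re with hs
  have hkey : ∀ w ∈ E', |XX w - s w| ≤ 393 / (1600 * p) * Real.sqrt ((8 * T : ℕ) : ℝ) := by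
    intro w hw
    rw [hE', Finset.mem_sdiff, Finset.mem_sdiff] at hw
    obtain ⟨⟨hwE, hw1⟩, hw2⟩ := hw
    have hx1 : ‖x w - x' w‖ ≤ η := by
      by_contra hcon
      apply hw1
      rw [hB₁, Finset.mem_filter]
      exact ⟨Finset.mem_univ _, by gcongr; exact (not_le.1 hcon).le⟩
    have hy1 : ‖y w - y' w‖ ≤ η := by
      by_contra hcon
      apply hw2
      rw [hB₂, Finset.mem_filter]
      exact ⟨Finset.mem_univ _, by gcongr; exact (not_le.1 hcon).le⟩
    have ha' : ‖a‖ ≤ ε / r := by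
      rw [le_div_iff₀ hr0]
      exact ha
    have h3 := F5_point (x w) (y w) (x' w) (y' w) a (zf δ w) R η (ε / r) (hxy w) (hE w hwE).1
      (hE w hwE).2 hx1 hy1 ha' hR0.le
    have h4 : 2 * R * η + η ^ 2 + 2 * R * (ε / r) ≤ 131 * δ / (1600 * p) / r := by
      have h5 : 2 * R * η + 2 * R * (ε / r) = 130 * δ / (1600 * p) / r := by
        rw [hR, hη]; field_simp; norm_num
      have h6 : η ^ 2 ≤ δ / (1600 * p) / r := by
        rw [hη2, ← hr2, div_le_div_iff₀ (by positivity) hr0]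
        have h7 : 4096 * ε ^ 2 ≤ δ / (1600 * p) * r := by
          rw [div_mul_eq_mul_div, le_div_iff₀ (by positivity)]
          rw [div_le_iff₀ hδ] at hrbig
          linarith
        calc 4096 * ε ^ 2 * r ≤ δ / (1600 * p) * r * r := by gcongr
          _ = δ / (1600 * p) * r ^ 2 := by ring
      have h8 : 131 * δ / (1600 * p) / r = 130 * δ / (1600 * p) / r + δ / (1600 * p) / r := by
        field_simp; norm_num
      linarith
    have h9 : XX w - s w = 3 * M / δ * (zf δ w - (x' w * y' w).re) := by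
      simp only [hs, zf]
      rw [hMcast]
      field_simp
      ring
    rw [h9, abs_mul, abs_of_pos (by positivity : 0 < 3 * M / δ), hMcast, ← hr]
    calc 3 * M / δ * |zf δ w - (x' w * y' w).re| ≤ 3 * M / δ * (131 * δ / (1600 * p) / r) := by
          gcongr; exact h3.trans h4
      _ = 393 / (1600 * p) * r := by
          rw [← hr2]; field_simp; norm_num
  have hS : 4 * (S₁ ∪ S₂).card ≤ 8 * T := by
    have := Finset.card_union_le S₁ S₂
    omega
  have hinv : ∀ v w, (∀ ψ ∈ S₁ ∪ S₂, ψ v = 1) → s (w + v) = s w := by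
    intro v w hv
    have hx2 : x' (w + v) = x' w := by
      simp only [hx']
      refine Finset.sum_congr rfl fun ψ hψ => ?_
      rw [AddChar.map_add_eq_mul, hv ψ (Finset.mem_union_left _ hψ), mul_one]
    have hy2 : y' (w + v) = y' w := by
      simp only [hy']
      refine Finset.sum_congr rfl fun ψ hψ => ?_
      rw [AddChar.map_add_eq_mul, hv ψ (Finset.mem_union_right _ hψ), mul_one]
    simp only [hs, hx2, hy2]
  have hF4 := F4_anti p (8 * T) (by omega) (S₁ ∪ S₂) hS s hinv (393 / (1600 * p)) (by positivity)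
    (by
      rw [div_pow, mul_div_assoc', div_le_one (by positivity)]
      nlinarith) E' hkey
  have hcard : (E.card : ℝ) ≤ E'.card + B₁.card + B₂.card := by
    have h1 : E.card ≤ E'.card + B₁.card + B₂.card := by
      calc E.card ≤ ((E' ∪ B₁) ∪ B₂).card := Finset.card_le_card fun w hw => by
            rw [Finset.mem_union, Finset.mem_union, hE', Finset.mem_sdiff, Finset.mem_sdiff]
            tauto
        _ ≤ (E' ∪ B₁).card + B₂.card := Finset.card_union_le _ _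
        _ ≤ E'.card + B₁.card + B₂.card := by
            gcongr; exact Finset.card_union_le _ _
    exact_mod_cast h1
  have hc0 : (0 : ℝ) ≤ Fintype.card (Omm p (8 * T)) := Nat.cast_nonneg _
  linarith

end Pool.Agent.helper28.OC
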